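import Pool.Agent.X178.Ray.Main

/-! Percolation of random rays of the square lattice: the critical intensity is positive whenever
`l ^ 2 * P(L ≥ l)` is bounded, and there are such laws with infinite second moment. -/

set_option autoImplicit false

open MeasureTheory ProbabilityTheory
open scoped ENNReal NNReal

namespace Pool.Agent.Results.MP_04d7a1_pr.BoundedTail

/-- The nearest-neighbour graph of the square lattice. -/
def grid : SimpleGraph (ℤ × ℤ) where
  Adj p q := (p.1 - q.1).natAbs + (p.2 - q.2).natAbs = 1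
  symm := ⟨fun p q h => by omega⟩
  loopless := ⟨fun p h => by simp at h⟩

/-- The four unit vectors of the square lattice. -/
def dir : Fin 4 → ℤ × ℤ := ![(1, 0), (-1, 0), (0, 1), (0, -1)]

/-- The ray animal `{x, x + e, x + 2e, …, x + l e}` rooted at `x`. -/
def ray (x e : ℤ × ℤ) (l : ℕ) : Set (ℤ × ℤ) := {y | ∃ k : ℕ, k ≤ l ∧ y = x + (k : ℤ) • e}

/-- The data of a site: the number of animals rooted there, and a sequence of directions and
lengths, of which only the first `N` are used. -/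
abbrev SiteData := ℕ × (ℕ → Fin 4 × ℕ)

/-- The set occupied by the animals. -/
def occupied (ω : ℤ × ℤ → SiteData) : Set (ℤ × ℤ) :=
  {y | ∃ x, ∃ i < (ω x).1, y ∈ ray x (dir ((ω x).2 i).1) ((ω x).2 i).2}

/-- The law of the data of a site when the length has law `ν`: `N` is Poisson with parameter
`lam`, the directions are uniform, the lengths have law `ν`, all independent. -/
noncomputable def siteLaw (lam : ℝ≥0) (ν : Measure ℕ) : Measure SiteData :=
  (poissonMeasure lam).prod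
    (Measure.infinitePi fun _ : ℕ => (PMF.uniformOfFintype (Fin 4)).toMeasure.prod ν)

/-- The law of the configuration: the data of the sites are independent. -/
noncomputable def rayLaw (lam : ℝ≥0) (ν : Measure ℕ) : Measure (ℤ × ℤ → SiteData) :=
  Measure.infinitePi fun _ : ℤ × ℤ => siteLaw lam ν

/-- The set `T` has an infinite connected component for nearest-neighbour adjacency. -/
def HasInfiniteCluster (T : Set (ℤ × ℤ)) : Prop :=
  ∃ C : (grid.induce T).ConnectedComponent, C.supp.Infinite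

/-- The critical intensity, the infimum of the intensities `lam > 0` for which there is an infinite
cluster with positive probability (`∞` if there is none). -/
noncomputable def lambdaC (ν : Measure ℕ) : ℝ≥0∞ :=
  sInf {t | ∃ lam : ℝ≥0, 0 < lam ∧ t = lam ∧
    0 < rayLaw lam ν {ω | HasInfiniteCluster (occupied ω)}}

open Pool.Agent.X178 in
theorem conn_of_walk {T : Set (ℤ × ℤ)} {a b : T} (w : (grid.induce T).Walk a b) :
    Ray.Conn T a b := by
  induction w with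
  | nil => exact Ray.Conn.refl (Subtype.prop _)
  | cons h p ih =>
    refine Ray.Conn.trans ((Ray.Conn.refl (Subtype.prop _)).tail ?_ (Subtype.prop _)) ih
    exact h

open Pool.Agent.X178 in
theorem perc_of_cluster {T : Set (ℤ × ℤ)} (h : HasInfiniteCluster T) : Ray.Perc T := by
  obtain ⟨C, hC⟩ := h
  induction C using SimpleGraph.ConnectedComponent.ind with
  | h x =>
    refine ⟨x, (hC.image (Subtype.val_injective.injOn)).mono ?_⟩
    rintro _ ⟨y, hy, rfl⟩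
    rw [SimpleGraph.ConnectedComponent.mem_supp_iff, SimpleGraph.ConnectedComponent.eq] at hy
    obtain ⟨w⟩ := hy.symm
    exact conn_of_walk w

open Pool.Agent.X178 in
theorem occupied_eq (ω : ℤ × ℤ → SiteData) : occupied ω = Ray.cov Set.univ ω := by
  ext y
  constructor
  · rintro ⟨x, h⟩; exact ⟨x, trivial, h⟩
  · rintro ⟨x, -, h⟩; exact ⟨x, h⟩

open Pool.Agent.X178 in
/-- If `l ^ 2 * P(L ≥ l)` is bounded, the critical intensity is positive. -/
theorem pos_of_tail (ν : Measure ℕ) [IsProbabilityMeasure ν] (A : ℝ≥0)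
    (hA : ∀ l : ℕ, (l : ℝ≥0∞) ^ 2 * ν (Set.Ici l) ≤ A) : 0 < lambdaC ν := by
  set d : ℝ≥0 := (2 * (163 ^ 4 : ℝ≥0))⁻¹ with hd
  have hd0 : 0 < d := by positivity
  have hdδ : (d : ℝ≥0∞) = Ray.δ := by
    rw [hd, ENNReal.coe_inv (by positivity)]
    unfold Ray.δ Ray.K
    push_cast
    norm_num
  set l0 : ℝ≥0 := d / (2 * 241 ^ 2 * (A + 1)) with hl0
  have hl0' : 0 < l0 := by positivity
  have e0 : l0 * (A + 1) = d / (2 * 241 ^ 2) := by
    rw [hl0]; field_simp
  have e1 : 241 ^ 2 * l0 * A ≤ d / 2 := by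
    calc 241 ^ 2 * l0 * A ≤ 241 ^ 2 * (l0 * (A + 1)) := by
          rw [mul_assoc]; gcongr; exact le_self_add
      _ = d / 2 := by rw [e0]; field_simp
  have e2 : 625 * l0 ≤ d := by
    calc 625 * l0 ≤ 625 * (l0 * (A + 1)) := by
          gcongr; exact le_mul_of_one_le_right' le_add_self
      _ = d * (625 / (2 * 241 ^ 2)) := by rw [e0]; field_simp
      _ ≤ d * 1 := by gcongr; rw [div_le_one (by positivity)]; norm_num
      _ = d := mul_one d
  have e3 : d + 92 * l0 * A < 1 := by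
    have : 92 * l0 * A ≤ d := by
      calc 92 * l0 * A ≤ 92 * (l0 * (A + 1)) := by
            rw [mul_assoc]; gcongr; exact le_self_add
        _ = d * (92 / (2 * 241 ^ 2)) := by rw [e0]; field_simp
        _ ≤ d * 1 := by gcongr; rw [div_le_one (by positivity)]; norm_num
        _ = d := mul_one d
    calc d + 92 * l0 * A ≤ d + d := by gcongr
      _ < 1 := by
        rw [hd, ← NNReal.coe_lt_coe]
        push_cast
        norm_num
  refine lt_of_lt_of_le (ENNReal.coe_pos.2 hl0') (le_sInf ?_)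
  rintro t ⟨lam, hlam, rfl, hpos⟩
  by_contra hcon
  have hle : lam ≤ l0 := by
    have := (not_le.1 hcon).le
    exact_mod_cast this
  have h1 : 241 ^ 2 * (lam : ℝ≥0∞) * A ≤ Ray.δ / 2 := by
    have : 241 ^ 2 * lam * A ≤ d / 2 := le_trans (by gcongr) e1
    rw [← hdδ]
    have h2 : ((241 ^ 2 * lam * A : ℝ≥0) : ℝ≥0∞) ≤ ((d / 2 : ℝ≥0) : ℝ≥0∞) := by exact_mod_cast this
    rw [ENNReal.coe_div (by norm_num)] at h2
    push_cast at h2
    exact h2
  have h2 : 625 * (lam : ℝ≥0∞) ≤ Ray.δ := by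
    have : 625 * lam ≤ d := le_trans (by gcongr) e2
    rw [← hdδ]
    exact_mod_cast this
  have h3 : Ray.δ + 92 * lam * A < 1 := by
    have : d + 92 * lam * A < 1 := lt_of_le_of_lt (by gcongr) e3
    rw [← hdδ]
    exact_mod_cast this
  have h4 : Ray.rayLaw lam ν {ω | Ray.Perc (Ray.cov Set.univ ω)} = 0 := by
    rcases Ray.zero_one lam ν with h | h
    · exact h
    · exact absurd ((Ray.perc_le hA h1 h2).trans_lt h3) (by rw [h]; exact lt_irrefl _)
  have h5 : rayLaw lam ν {ω | HasInfiniteCluster (occupied ω)} = 0 := by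
    refine measure_mono_null ?_ h4
    intro ω hω
    have := perc_of_cluster hω
    rw [occupied_eq] at this
    exact this
  rw [h5] at hpos
  exact lt_irrefl _ hpos

/-- a law with tail of order `l ^ (-2)` -/
noncomputable def law : Measure ℕ :=
  Measure.sum fun k : ℕ => ((1 - 4⁻¹ : ℝ≥0∞) * (4⁻¹ : ℝ≥0∞) ^ k) • Measure.dirac (2 ^ k)

theorem q_ne : (1 - 4⁻¹ : ℝ≥0∞) ≠ 0 := by
  rw [Ne, tsub_eq_zero_iff_le, not_le]
  exact ENNReal.inv_lt_one.2 (by norm_num)

theorem q_ne_top : (1 - 4⁻¹ : ℝ≥0∞) ≠ ⊤ := ENNReal.sub_ne_top ENNReal.one_ne_top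

theorem law_apply (s : Set ℕ) : law s = ∑' k : ℕ, (1 - 4⁻¹ : ℝ≥0∞) * (4⁻¹ : ℝ≥0∞) ^ k *
    s.indicator 1 (2 ^ k) := by
  unfold law
  rw [Measure.sum_apply _ MeasurableSet.of_discrete]
  simp

theorem sum_q : ∑' k : ℕ, (1 - 4⁻¹ : ℝ≥0∞) * (4⁻¹ : ℝ≥0∞) ^ k = 1 := by
  rw [ENNReal.tsum_mul_left, ENNReal.tsum_geometric, ENNReal.mul_inv_cancel q_ne q_ne_top]

instance : IsProbabilityMeasure law := ⟨by
  rw [law_apply]
  simpa using sum_q⟩

theorem law_tail (l : ℕ) : (l : ℝ≥0∞) ^ 2 * law (Set.Ici l) ≤ (1 : ℝ≥0) := by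
  rw [law_apply, ← Summable.sum_add_tsum_nat_add' (k := Nat.clog 2 l) ENNReal.summable]
  have h1 : ∑ k ∈ Finset.range (Nat.clog 2 l), (1 - 4⁻¹ : ℝ≥0∞) * (4⁻¹ : ℝ≥0∞) ^ k *
      (Set.Ici l).indicator 1 (2 ^ k) = 0 := by
    refine Finset.sum_eq_zero fun k hk => ?_
    have : (2 ^ k : ℕ) ∉ Set.Ici l := by
      rw [Set.mem_Ici, not_le]
      exact (Nat.lt_clog_iff_pow_lt (by norm_num)).1 (Finset.mem_range.1 hk)
    rw [Set.indicator_of_notMem this, mul_zero]
  rw [h1, zero_add]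
  have h2 : ∑' k : ℕ, (1 - 4⁻¹ : ℝ≥0∞) * (4⁻¹ : ℝ≥0∞) ^ (k + Nat.clog 2 l) *
      (Set.Ici l).indicator 1 (2 ^ (k + Nat.clog 2 l)) ≤ (4⁻¹ : ℝ≥0∞) ^ (Nat.clog 2 l) := by
    calc ∑' k : ℕ, (1 - 4⁻¹ : ℝ≥0∞) * (4⁻¹ : ℝ≥0∞) ^ (k + Nat.clog 2 l) *
        (Set.Ici l).indicator 1 (2 ^ (k + Nat.clog 2 l))
        ≤ ∑' k : ℕ, ((1 - 4⁻¹ : ℝ≥0∞) * (4⁻¹ : ℝ≥0∞) ^ k) * (4⁻¹ : ℝ≥0∞) ^ (Nat.clog 2 l) := by
          refine ENNReal.tsum_le_tsum fun k => ?_
          rw [pow_add, ← mul_assoc]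
          refine mul_le_of_le_one_right' ?_
          exact Set.indicator_le_self' (fun _ _ => zero_le) _
      _ = (4⁻¹ : ℝ≥0∞) ^ (Nat.clog 2 l) := by
          rw [ENNReal.tsum_mul_right, sum_q, one_mul]
  refine (mul_le_mul_right h2 _).trans ?_
  have h3 : (l : ℝ≥0∞) ≤ 2 ^ (Nat.clog 2 l) := by
    have := Nat.le_pow_clog (b := 2) (by norm_num) l
    exact_mod_cast this
  calc (l : ℝ≥0∞) ^ 2 * (4⁻¹ : ℝ≥0∞) ^ (Nat.clog 2 l)
      ≤ ((2 : ℝ≥0∞) ^ (Nat.clog 2 l)) ^ 2 * (4⁻¹ : ℝ≥0∞) ^ (Nat.clog 2 l) := by gcongr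
    _ = 1 := by
      rw [← pow_mul, mul_comm (Nat.clog 2 l) 2, pow_mul, ← mul_pow,
        show (2 : ℝ≥0∞) ^ 2 = 4 by norm_num, ENNReal.mul_inv_cancel (by norm_num) (by norm_num),
        one_pow]
    _ ≤ ((1 : ℝ≥0) : ℝ≥0∞) := by simp

theorem law_moment : ∫⁻ l, ((l : ℝ≥0∞) + 1) ^ 2 ∂law = ⊤ := by
  unfold law
  rw [lintegral_sum_measure]
  refine eq_top_iff.2 ?_
  have h1 : ∑' _ : ℕ, (1 - 4⁻¹ : ℝ≥0∞) = ⊤ := ENNReal.tsum_const_eq_top_of_ne_zero q_ne
  rw [← h1]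
  refine ENNReal.tsum_le_tsum fun k => ?_
  rw [lintegral_smul_measure, lintegral_dirac, smul_eq_mul]
  calc (1 - 4⁻¹ : ℝ≥0∞) = (1 - 4⁻¹ : ℝ≥0∞) * (4⁻¹ : ℝ≥0∞) ^ k * 4 ^ k := by
        rw [mul_assoc, ← mul_pow, ENNReal.inv_mul_cancel (by norm_num) (by norm_num), one_pow,
          mul_one]
    _ ≤ (1 - 4⁻¹ : ℝ≥0∞) * (4⁻¹ : ℝ≥0∞) ^ k * (((2 ^ k : ℕ) : ℝ≥0∞) + 1) ^ 2 := by
        refine mul_le_mul' le_rfl ?_
        have : (4 : ℝ≥0∞) ^ k = ((2 ^ k : ℕ) : ℝ≥0∞) ^ 2 := by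
          push_cast
          rw [← pow_mul, mul_comm k 2, pow_mul]
          norm_num
        rw [this]
        gcongr
        exact le_self_add

/-- **Q1 is false.** There is a law `ν` of the length `L` with `E (L + 1) ^ 2 = ∞` whose critical
intensity is positive. In fact the critical intensity is positive for every law of `L` such that
`l ^ 2 * P(L ≥ l)` is bounded. -/
theorem result :
    (∃ ν : Measure ℕ, IsProbabilityMeasure ν ∧ ∫⁻ l, ((l : ℝ≥0∞) + 1) ^ 2 ∂ν = ⊤ ∧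
      0 < lambdaC ν) ∧
    ∀ ν : Measure ℕ, IsProbabilityMeasure ν →
      (∃ A : ℝ≥0, ∀ l : ℕ, (l : ℝ≥0∞) ^ 2 * ν (Set.Ici l) ≤ A) → 0 < lambdaC ν := by
  refine ⟨⟨law, inferInstance, law_moment, pos_of_tail law 1 law_tail⟩, ?_⟩
  rintro ν hν ⟨A, hA⟩
  exact pos_of_tail ν A hA

end Pool.Agent.Results.MP_04d7a1_pr.BoundedTail
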